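import Pool.Agent.Helper72.Semi.Defs
import Pool.Agent.Helper72.Semi.Rec

/-! There is (in ZFC) a semifilter which is not strongly homogeneous. -/

set_option autoImplicit false

open Topology Set Pool.Agent.Helper72.Semi

namespace Pool.Agent.Results.MP_7a28e0_gt.NotStronglyHomogeneous

/-- the bijection `Bool ≃ ZMod 2` -/
def bz : Bool ≃ ZMod 2 where
  toFun b := if b then 1 else 0
  invFun a := decide (a = 1)
  left_inv := by decide
  right_inv := by decide

/-- the Cantor set as `X` -/
def HH (e : ℕ ≃ Om) : (ℕ → Bool) ≃ₜ X where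
  toFun x o := bz (x (e.symm o))
  invFun z n := bz.symm (z (e n))
  left_inv x := by
    funext n
    simp
  right_inv z := by
    funext o
    simp
  continuous_toFun := by
    refine continuous_pi fun o => ?_
    exact (continuous_of_discreteTopology (f := bz)).comp (continuous_apply (e.symm o))
  continuous_invFun := by
    refine continuous_pi fun n => ?_
    exact (continuous_of_discreteTopology (f := bz.symm)).comp (continuous_apply (e n))

theorem HH_apply (e : ℕ ≃ Om) (x : ℕ → Bool) (o : Om) : HH e x o = bz (x (e.symm o)) := rfl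

theorem bz_one (b : Bool) : bz b = 1 ↔ b = true := by
  revert b; decide

theorem bz_zero (b : Bool) : bz b = 0 ↔ b = false := by
  revert b; decide

theorem result : ∃ S : Set (ℕ → Bool), IsSemifilter S ∧ ¬ StronglyHomogeneous S := by
  obtain ⟨S, hD, hup, hinf, hne⟩ := main_X
  obtain ⟨e⟩ : Nonempty (ℕ ≃ Om) := nonempty_equiv_of_countable
  have hone : (1 : X) ∈ S := hD (by
    refine Set.finite_empty.subset ?_
    intro o ho
    exact absurd (show (1 : ZMod 2) = 0 from ho) (by decide))
  refine ⟨HH e ⁻¹' S, ⟨?_, ?_, ?_⟩, ?_⟩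
  · refine ⟨(HH e).symm 1, ?_⟩
    rw [Set.mem_preimage, Homeomorph.apply_symm_apply]
    exact hone
  · intro x hx hfin
    apply hinf _ hx
    refine (hfin.image e).subset ?_
    intro o ho
    refine ⟨e.symm o, ?_, e.apply_symm_apply o⟩
    exact (bz_one _).1 ho
  · intro x hx y hxy
    refine hup _ _ hx ?_
    refine (hxy.image e).subset ?_
    rintro o ⟨h1, h2⟩
    exact ⟨e.symm o, ⟨(bz_one _).1 h1, (bz_zero _).1 h2⟩, e.apply_symm_apply o⟩
  · intro hSH
    -- the clopen half
    set U : Set (HH e ⁻¹' S) := {z | HH e z.1 o0 = 0} with hU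
    have hcont : Continuous (fun z : HH e ⁻¹' S => HH e z.1 o0) :=
      (continuous_apply o0).comp ((HH e).continuous.comp continuous_subtype_val)
    have hclopen : IsClopen U := by
      have : U = (fun z : HH e ⁻¹' S => HH e z.1 o0) ⁻¹' {0} := rfl
      rw [this]
      exact (isClopen_discrete _).preimage hcont
    have hnonempty : U.Nonempty := by
      classical
      let z0 : X := fun o => if o = o0 then 0 else 1
      have hz0 : z0 ∈ S := hD (by
        refine (Set.finite_singleton o0).subset ?_
        intro o ho
        by_contra hc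
        have h1 : (if o = o0 then 0 else 1) = (0 : ZMod 2) := ho
        have hc' : o ≠ o0 := hc
        rw [if_neg hc'] at h1
        exact absurd h1 (by decide))
      refine ⟨⟨(HH e).symm z0, ?_⟩, ?_⟩
      · rw [Set.mem_preimage, Homeomorph.apply_symm_apply]
        exact hz0
      · show HH e ((HH e).symm z0) o0 = 0
        rw [Homeomorph.apply_symm_apply]
        simp [z0]
    obtain ⟨F⟩ := hSH U hclopen hnonempty
    -- homeomorphism `S' ≃ S`
    have hm : ∀ z : X, z ∈ S → (HH e).symm z ∈ HH e ⁻¹' S := by
      intro z hz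
      rw [Set.mem_preimage, Homeomorph.apply_symm_apply]
      exact hz
    have hm' : ∀ z : X, (hz : z ∈ S ∧ z o0 = 0) → (⟨(HH e).symm z, hm z hz.1⟩ :
        (HH e ⁻¹' S : Set (ℕ → Bool))) ∈ U := by
      intro z hz
      show HH e ((HH e).symm z) o0 = 0
      rw [Homeomorph.apply_symm_apply]
      exact hz.2
    let A : (HH e ⁻¹' S : Set (ℕ → Bool)) ≃ₜ S :=
      { toFun := fun z => ⟨HH e z.1, z.2⟩
        invFun := fun z => ⟨(HH e).symm z.1, hm z.1 z.2⟩
        left_inv := fun z => Subtype.ext ((HH e).symm_apply_apply z.1)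
        right_inv := fun z => Subtype.ext ((HH e).apply_symm_apply z.1)
        continuous_toFun := ((HH e).continuous.comp continuous_subtype_val).subtype_mk
          (fun z => z.2)
        continuous_invFun := ((HH e).symm.continuous.comp continuous_subtype_val).subtype_mk
          (fun z => hm z.1 z.2) }
    let B : U ≃ₜ {z : X | z ∈ S ∧ z o0 = 0} :=
      { toFun := fun z => ⟨HH e z.1.1, z.1.2, z.2⟩
        invFun := fun z => ⟨⟨(HH e).symm z.1, hm z.1 z.2.1⟩, hm' z.1 z.2⟩
        left_inv := fun z => Subtype.ext (Subtype.ext ((HH e).symm_apply_apply z.1.1))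
        right_inv := fun z => Subtype.ext ((HH e).apply_symm_apply z.1)
        continuous_toFun := ((HH e).continuous.comp
          (continuous_subtype_val.comp continuous_subtype_val)).subtype_mk
            (fun z : U => ⟨z.1.2, z.2⟩)
        continuous_invFun := (((HH e).symm.continuous.comp continuous_subtype_val).subtype_mk
          (fun z : {z : X | z ∈ S ∧ z o0 = 0} => hm z.1 z.2.1)).subtype_mk
            (fun z => hm' z.1 z.2) }
    exact hne.false ((B.symm.trans F).trans A)

end Pool.Agent.Results.MP_7a28e0_gt.NotStronglyHomogeneous
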